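import Pool.Agent.P.MP_92d394_lc.F.St

/-! A cheap connector, and the layer cake decomposition. -/

namespace Pool.Agent.P.MP_92d394_lc.F

open Finset H

namespace Con

variable {V E : Type} [Fintype V] [DecidableEq V] [DecidableEq E] {a b : E → V}

omit [DecidableEq E] in
theorem mem_cl_iff {A : Finset E} {u v : V} : u ∈ Kru.cl a b A v ↔ Kru.cl a b A u = Kru.cl a b A v :=
  ⟨Kru.cl_eq, fun h => h ▸ Kru.self_mem a b A u⟩

theorem sep {A : Finset E} {e : E} {u v : V} (h1 : Kru.cl a b A u ≠ Kru.cl a b A (a e))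
    (h2 : Kru.cl a b A u ≠ Kru.cl a b A (b e))
    (h : Kru.cl a b (insert e A) u = Kru.cl a b (insert e A) v) :
    Kru.cl a b A u = Kru.cl a b A v := by
  have hS : dl a b (insert e A) (Kru.cl a b A u) = ∅ := by
    rw [Kru.dl_empty]
    intro x hx
    rw [mem_cl_iff, mem_cl_iff]
    rcases mem_insert.1 hx with rfl | hx
    · exact iff_of_false h1.symm h2.symm
    · rw [Kru.cl_edge hx]
  exact (mem_cl_iff.1 ((Kru.mem_cl.1 (mem_cl_iff.2 h) _ hS).1 (Kru.self_mem a b A u))).symm

theorem pc_insert (A : Finset E) (e : E) : Kru.pc a b A ≤ Kru.pc a b (insert e A) + 1 := by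
  have h1 : ((univ.image (Kru.cl a b A)).erase (Kru.cl a b A (a e))).card
      ≤ Kru.pc a b (insert e A) := by
    refine card_le_card_of_injOn (fun X => X.biUnion (Kru.cl a b (insert e A))) (fun X hX => ?_)
      fun X hX Y hY h => ?_
    · obtain ⟨u, -, rfl⟩ := mem_image.1 (mem_erase.1 (mem_coe.1 hX)).2
      exact mem_coe.2 (mem_image.2 ⟨u, mem_univ _, (Kru.biUnion_cl (subset_insert e A) u).symm⟩)
    · obtain ⟨hX1, hX2⟩ := mem_erase.1 (mem_coe.1 hX)
      obtain ⟨hY1, hY2⟩ := mem_erase.1 (mem_coe.1 hY)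
      obtain ⟨u, -, rfl⟩ := mem_image.1 hX2
      obtain ⟨v, -, rfl⟩ := mem_image.1 hY2
      have h' : Kru.cl a b (insert e A) u = Kru.cl a b (insert e A) v := by
        rw [← Kru.biUnion_cl (subset_insert e A) u, ← Kru.biUnion_cl (subset_insert e A) v]
        exact h
      by_cases hu : Kru.cl a b A u = Kru.cl a b A (b e)
      · by_cases hv : Kru.cl a b A v = Kru.cl a b A (b e)
        · exact hu.trans hv.symm
        · exact (sep hY1 hv h'.symm).symm
      · exact sep hX1 hu h'
  have h2 := pred_card_le_card_erase (s := univ.image (Kru.cl a b A)) (a := Kru.cl a b A (a e))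
  unfold Kru.pc at h1 ⊢
  omega

theorem pc_union (A K : Finset E) : Kru.pc a b A ≤ Kru.pc a b (K ∪ A) + K.card := by
  induction K using Finset.induction_on with
  | empty => simp
  | insert e K he ih =>
    have := pc_insert (a := a) (b := b) (K ∪ A) e
    rw [insert_union, card_insert_of_notMem he]
    omega

omit [DecidableEq E] in
theorem pc_le_one {A : Finset E}
    (h : ∀ S : Finset V, S.Nonempty → Sᶜ.Nonempty → (dl a b A S).Nonempty) : Kru.pc a b A ≤ 1 := by
  have h1 : ∀ v, Kru.cl a b A v = univ := fun v => eq_univ_of_forall fun u => Kru.mem_cl.2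
    fun S hS => by
      by_contra hne
      refine (h S ?_ ?_).ne_empty hS
      · by_cases hu : u ∈ S
        · exact ⟨u, hu⟩
        · exact ⟨v, by tauto⟩
      · by_cases hu : u ∈ S
        · exact ⟨v, mem_compl.2 (by tauto)⟩
        · exact ⟨u, mem_compl.2 hu⟩
  refine card_le_one.2 fun X hX Y hY => ?_
  obtain ⟨u, -, rfl⟩ := mem_image.1 hX
  obtain ⟨v, -, rfl⟩ := mem_image.1 hY
  rw [h1, h1]

omit [Fintype V] [DecidableEq E] in
theorem dl_mono {A A' : Finset E} (h : A ⊆ A') {S : Finset V} (hS : (dl a b A S).Nonempty) :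
    (dl a b A' S).Nonempty := hS.mono (filter_subset_filter _ h)

theorem layers (A : Finset ℝ) : (∀ x ∈ A, 0 ≤ x) → ∃ (I : Finset ℝ) (μ : ℝ → ℝ) (m : ℝ),
    (∀ t ∈ I, 0 ≤ t ∧ t < m ∧ 0 ≤ μ t) ∧ ∑ t ∈ I, μ t = m ∧ (m = 0 ∨ m ∈ A) ∧
      ∀ x ∈ A, x ≤ m ∧ x = ∑ t ∈ I, μ t * if t < x then 1 else 0 := by
  induction A using Finset.induction_on_max with
  | empty => exact fun _ => ⟨∅, 0, 0, by simp, by simp, Or.inl rfl, by simp⟩
  | insert x A hx ih =>
    intro h0
    obtain ⟨I, μ, m, h1, h2, h3, h4⟩ := ih fun y hy => h0 y (mem_insert_of_mem hy)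
    have hx0 := h0 x (mem_insert_self _ _)
    have hm0 : 0 ≤ m := h3.elim (fun h => h.ge) fun h => h0 m (mem_insert_of_mem h)
    have hall : ∀ y, m ≤ y → ∑ t ∈ I, (μ t * if t < y then 1 else 0) = m := fun y hy => by
      rw [← h2]
      exact sum_congr rfl fun t ht => by rw [if_pos ((h1 t ht).2.1.trans_le hy), mul_one]
    rcases (h3.elim (fun h => h.le.trans hx0) fun h => (hx m h).le).eq_or_lt with hm | hm
    · refine ⟨I, μ, m, h1, h2, h3.imp id mem_insert_of_mem, fun y hy => ?_⟩
      rcases mem_insert.1 hy with rfl | hy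
      · exact ⟨hm.ge, by rw [hall y hm.le, hm]⟩
      · exact h4 y hy
    · have hmI : m ∉ I := fun h => lt_irrefl _ (h1 m h).2.1
      have hμ : ∀ t ∈ I, Function.update μ m (x - m) t = μ t :=
        fun t ht => Function.update_of_ne (h1 t ht).2.1.ne _ _
      have hs : ∀ y, ∑ t ∈ insert m I, (Function.update μ m (x - m) t * if t < y then 1 else 0)
          = ((x - m) * if m < y then 1 else 0) + ∑ t ∈ I, μ t * if t < y then 1 else 0 := fun y => by
        rw [sum_insert hmI, Function.update_self, sum_congr rfl fun t ht => by rw [hμ t ht]]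
      refine ⟨insert m I, Function.update μ m (x - m), x, fun t ht => ?_, ?_,
        Or.inr (mem_insert_self _ _), fun y hy => ?_⟩
      · rcases mem_insert.1 ht with rfl | ht
        · exact ⟨hm0, hm, by rw [Function.update_self]; linarith⟩
        · exact ⟨(h1 t ht).1, (h1 t ht).2.1.trans hm, by rw [hμ t ht]; exact (h1 t ht).2.2⟩
      · rw [sum_insert hmI, Function.update_self, sum_congr rfl hμ, h2]
        ring
      · rw [hs]
        rcases mem_insert.1 hy with rfl | hy
        · exact ⟨le_rfl, by rw [if_pos hm, hall y hm.le]; ring⟩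
        · exact ⟨(hx y hy).le, by
            rw [if_neg (not_lt.2 (h4 y hy).1), mul_zero, zero_add]; exact (h4 y hy).2⟩

end Con

theorem con : S_Con := by
  intro V E _ _ _ _ a b w F K hV h
  obtain ⟨B, -, hS, hb⟩ := Kru.main a b (fun e => if e ∈ F then -1 else w e) univ
  refine ⟨B \ F, fun S h1 h2 => ?_, fun t ht => ?_⟩
  · have h3 : (dl a b univ S).Nonempty := by
      by_contra hn
      have h4 := Kru.dl_empty.1 (not_nonempty_iff_eq_empty.1 hn)
      exact hn ((h 0 S h1 h2 fun e _ => h4 e (mem_univ e)).elim (Con.dl_mono (subset_univ _))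
        (Con.dl_mono (subset_univ _)))
    obtain ⟨e, he⟩ := nonempty_iff_ne_empty.2 fun h0 => h3.ne_empty (hS S h0)
    obtain ⟨he1, he2⟩ := mem_filter.1 he
    by_cases heF : e ∈ F
    · exact Or.inl ⟨e, mem_filter.2 ⟨heF, he2⟩⟩
    · exact Or.inr ⟨e, mem_filter.2 ⟨mem_sdiff.2 ⟨he1, heF⟩, he2⟩⟩
  · have h1 := hb t
    set A := univ.filter fun e => (if e ∈ F then -1 else w e) ≤ t with hA
    have h2 : ((B \ F).filter fun e => t < w e).card
        ≤ (B.filter fun e => t < if e ∈ F then -1 else w e).card :=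
      card_le_card fun e he => by
        obtain ⟨h3, h4⟩ := mem_filter.1 he
        exact mem_filter.2 ⟨(mem_sdiff.1 h3).1, by rwa [if_neg (mem_sdiff.1 h3).2]⟩
    have h3 : 1 ≤ Kru.pc a b univ := by
      obtain ⟨v⟩ := hV
      exact card_pos.mpr ⟨_, mem_image_of_mem _ (mem_univ v)⟩
    have h4 := Con.pc_union (a := a) (b := b) A (K t)
    have h5 : Kru.pc a b (K t ∪ A) ≤ 1 := Con.pc_le_one fun S h1 h2 => by
      by_contra hn
      have h6 := Kru.dl_empty.1 (not_nonempty_iff_eq_empty.1 hn)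
      have hF : F ⊆ A := fun e he => mem_filter.2 ⟨mem_univ _, by rw [if_pos he]; linarith⟩
      refine hn ((h t S h1 h2 fun e he => h6 e (mem_union_right _ ?_)).elim
        (Con.dl_mono (hF.trans subset_union_right)) (Con.dl_mono subset_union_left))
      by_cases heF : e ∈ F
      · exact hF heF
      · exact mem_filter.2 ⟨mem_univ _, by rwa [if_neg heF]⟩
    omega

theorem cake : S_Cake := by
  classical
  intro E _ w hw
  obtain ⟨I, μ, m, h1, -, -, h4⟩ := Con.layers (univ.image w) fun x hx => by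
    obtain ⟨e, -, rfl⟩ := mem_image.1 hx
    exact hw e
  exact ⟨I, μ, fun t ht => ⟨(h1 t ht).1, (h1 t ht).2.2⟩,
    fun e => (h4 _ (mem_image_of_mem w (mem_univ e))).2⟩

end Pool.Agent.P.MP_92d394_lc.F
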