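import Pool.Agent.P.MP_92d394_lc.F.St

/-! The certificate for the classes of a partition. -/

namespace Pool.Agent.P.MP_92d394_lc.F

open Finset H

namespace Lev

variable {V E : Type} [Fintype V] [DecidableEq V] (a b : E → V) (H : Finset E)
  (ρ : V → Finset V)

theorem pull (SS : Finset (Finset V)) :
    dl (fun e => ρ (a e)) (fun e => ρ (b e)) H SS = dl a b H (univ.filter fun v => ρ v ∈ SS) := by
  ext e
  simp only [dl, mem_filter, mem_univ, true_and]

theorem compl (S : Finset V) : dl a b H Sᶜ = dl a b H S := by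
  ext e
  simp only [dl, mem_filter, mem_compl, not_iff_not]

variable {ρ}

theorem cls (h1 : ∀ v, v ∈ ρ v) (h2 : ∀ u v, u ∈ ρ v → ρ u = ρ v) {X : Finset V}
    (hX : X ∈ univ.image ρ) : (univ.filter fun v => ρ v ∈ ({X} : Finset (Finset V))) = X := by
  obtain ⟨x, -, rfl⟩ := mem_image.1 hX
  ext v
  simp only [mem_filter, mem_univ, true_and, mem_singleton]
  exact ⟨fun h => h ▸ h1 v, h2 v x⟩

theorem sat (h1 : ∀ v, v ∈ ρ v) {S : Finset V} (hS : ∀ v ∈ S, ρ v ⊆ S) :
    (univ.filter fun v => ρ v ∈ S.image ρ) = S := by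
  ext v
  simp only [mem_filter, mem_univ, true_and, mem_image]
  exact ⟨fun ⟨u, hu, e⟩ => hS u hu (e ▸ h1 v), fun h => ⟨v, h, rfl⟩⟩

end Lev

theorem lev (h : S_MS) : S_Lev := by
  intro V E _ _ _ _ a b H ρ r two h1 h2
  have one : ∀ X ∈ univ.image ρ,
      dl (fun e => ρ (a e)) (fun e => ρ (b e)) H {X} = dl a b H X := fun X hX => by
    rw [Lev.pull, Lev.cls h1 h2 hX]
  obtain ⟨D, hD, hc, hJ⟩ := h (Finset V) E (fun e => ρ (a e)) (fun e => ρ (b e)) H
    (univ.image ρ) ((univ.image ρ).filter fun X => (dl a b H X).card = 3) (ρ r)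
    (mem_image_of_mem _ (mem_univ _))
    (fun e _ => ⟨mem_image_of_mem _ (mem_univ _), mem_image_of_mem _ (mem_univ _)⟩)
    (fun SS hSS ⟨X, hX⟩ => by
      rw [Lev.pull]
      obtain ⟨x, -, rfl⟩ := mem_image.1 (mem_of_mem_erase (hSS hX))
      refine two _ ⟨x, mem_filter.2 ⟨mem_univ _, hX⟩⟩ ⟨r, mem_compl.2 fun hr => ?_⟩
      exact notMem_erase _ _ (hSS (mem_filter.1 hr).2))
    (fun X hX => by rw [one X (mem_filter.1 hX).1]; exact (mem_filter.1 hX).2)
  refine ⟨D, hD, hc.trans_eq (sum_congr rfl fun X hX => ?_), fun J hJ3 => ?_⟩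
  · simp only [mem_filter, mem_of_mem_erase hX, true_and]
  have key : ∀ S : Finset V, S.Nonempty → r ∉ S → (∀ v ∈ S, ρ v ⊆ S) →
      ∃ e ∈ dl a b H S, e ∉ J ∨ e ∈ D := fun S hS hr hs => by
    have := hJ J (fun X hX => by
      rw [one X (mem_filter.1 hX).1]; exact hJ3 X (mem_filter.1 hX).2) (S.image ρ)
      (fun X hX => by
        obtain ⟨x, hx, rfl⟩ := mem_image.1 hX
        exact mem_erase.2 ⟨fun e => hr (hs x hx (e ▸ h1 r)), mem_image_of_mem _ (mem_univ _)⟩)
      (hS.image ρ)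
    rwa [Lev.pull, Lev.sat h1 hs] at this
  intro S hS hS' hs
  by_cases hr : r ∈ S
  · rw [← Lev.compl]
    refine key _ hS' (by simpa using hr) fun v hv u hu => mem_compl.2 fun hu' => ?_
    exact mem_compl.1 hv (hs u hu' (h2 u v hu ▸ h1 v))
  · exact key S hS hr hs

end Pool.Agent.P.MP_92d394_lc.F
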