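import Pool.Agent.P.MP_92d394_lc.F.St

/-! The certificate for a rooted two edge connected multigraph, by splitting at a node. -/

namespace Pool.Agent.P.MP_92d394_lc.F

open Finset H

namespace MS

variable {W E : Type} [DecidableEq W] {a b : E → W} {H : Finset E} {U C : Finset W} {v : W}

/-- the edges with both ends in `X` -/
def ins (a b : E → W) (H : Finset E) (X : Finset W) : Finset E :=
  H.filter fun e => a e ∈ X ∧ b e ∈ X

theorem mem_ins {X : Finset W} {e : E} : e ∈ ins a b H X ↔ e ∈ H ∧ a e ∈ X ∧ b e ∈ X := mem_filter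

theorem key (hC : ∀ e ∈ dl a b H C, a e = v ∨ b e = v) (hv : v ∉ C) {e : E} (he : e ∈ H) :
    (a e ∈ C → b e ∈ C ∨ b e = v) ∧ (b e ∈ C → a e ∈ C ∨ a e = v) := by
  have h := fun h => hC e (Thr.mem_dl.2 ⟨he, h⟩)
  constructor
  · intro h1
    by_contra h2
    rw [not_or] at h2
    rcases h (fun h3 => h2.1 (h3.1 h1)) with h3 | h3
    · exact hv (h3 ▸ h1)
    · exact h2.2 h3
  · intro h1
    by_contra h2
    rw [not_or] at h2
    rcases h (fun h3 => h2.1 (h3.2 h1)) with h3 | h3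
    · exact h2.2 h3
    · exact hv (h3 ▸ h1)

theorem dl1 (hC : ∀ e ∈ dl a b H C, a e = v ∨ b e = v) (hv : v ∉ C) {S : Finset W} (hS : S ⊆ C) :
    dl a b (ins a b H (insert v C)) S = dl a b H S := by
  ext e
  simp only [Thr.mem_dl, mem_ins, mem_insert]
  refine ⟨fun h => ⟨h.1.1, h.2⟩, fun h => ⟨⟨h.1, ?_⟩, h.2⟩⟩
  have h1 := key hC hv h.1
  have h2 := @hS (a e)
  have h3 := @hS (b e)
  tauto

theorem dl2 (hU : ∀ e ∈ H, a e ∈ U ∧ b e ∈ U) (hC : ∀ e ∈ dl a b H C, a e = v ∨ b e = v)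
    (hv : v ∉ C) {S : Finset W} (hS : ∀ x ∈ S, x ∉ C ∧ x ≠ v) :
    dl a b (ins a b H (U \ C)) S = dl a b H S := by
  ext e
  simp only [Thr.mem_dl, mem_ins, mem_sdiff]
  refine ⟨fun h => ⟨h.1.1, h.2⟩, fun h => ⟨⟨h.1, ?_⟩, h.2⟩⟩
  have h1 := key hC hv h.1
  have h2 := hS (a e)
  have h3 := hS (b e)
  have h4 := hU e h.1
  tauto

theorem dl3 (hU : ∀ e ∈ H, a e ∈ U ∧ b e ∈ U) (hC : ∀ e ∈ dl a b H C, a e = v ∨ b e = v)
    (hv : v ∉ C) {S : Finset W} (hS : v ∈ S) :
    dl a b H (S ∪ C) ⊆ dl a b (ins a b H (U \ C)) S := by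
  intro e
  simp only [Thr.mem_dl, mem_ins, mem_sdiff, mem_union]
  intro h
  have h1 := key hC hv h.1
  have h2 : a e = v → a e ∈ S := fun h => h ▸ hS
  have h3 : b e = v → b e ∈ S := fun h => h ▸ hS
  have h4 := hU e h.1
  tauto

theorem four [DecidableEq E] (hC : ∀ e ∈ dl a b H C, a e = v ∨ b e = v) (hv : v ∉ C) :
    (dl a b H C).card + (dl a b H (insert v C)).card ≤ (dl a b H {v}).card := by
  rw [← card_union_of_disjoint]
  · refine card_le_card fun e => ?_
    simp only [Thr.mem_dl, mem_union, mem_insert, mem_singleton]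
    intro h
    have he : e ∈ H := h.elim And.left And.left
    have h1 := key hC hv he
    have h2 : a e = v → a e ∉ C := fun h => h ▸ hv
    have h3 : b e = v → b e ∉ C := fun h => h ▸ hv
    tauto
  · refine disjoint_left.2 fun e => ?_
    simp only [Thr.mem_dl, mem_insert]
    intro h h'
    have h1 := key hC hv h.1
    tauto

end MS

open MS in
theorem ms (h : S_Ord) : S_MS := by
  intro W E _ _ a b H U
  induction U using Finset.strongInduction generalizing H with
  | H U ih =>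
  intro T r hr hU h2 h3
  by_cases hx : ∀ v ∈ U, ∀ C ⊆ (U.erase r).erase v, C.Nonempty →
      (∀ e ∈ dl a b H C, a e = v ∨ b e = v) → insert v C = U
  · exact h W E a b H U T r hr hU h2 h3 hx
  simp only [not_forall] at hx
  obtain ⟨v, hvU, C, hCU, hC0, hC, hne⟩ := hx
  have hv : v ∉ C := fun h => notMem_erase v _ (hCU h)
  have hCr : C ⊆ U.erase r := hCU.trans (erase_subset _ _)
  have hCU' : C ⊆ U := hCr.trans (erase_subset _ _)
  have hrC : r ∉ C := fun h => notMem_erase r _ (hCr h)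
  have e1 : (insert v C).erase v = C := erase_insert hv
  have hT : v ≠ r → v ∉ T := fun hvr hvT => by
    have h4 := four hC hv
    have h5 := h2 C hCr hC0
    have h6 := h2 (insert v C) (insert_subset (mem_erase.2 ⟨hvr, hvU⟩) hCr) (insert_nonempty _ _)
    have h7 := h3 v hvT
    omega
  have s1 : ∀ u ∈ T ∩ C, dl a b (ins a b H (insert v C)) {u} = dl a b H {u} := fun u hu =>
    dl1 hC hv (singleton_subset_iff.2 (mem_inter.1 hu).2)
  have s2 : ∀ u ∈ (T \ C).erase v, dl a b (ins a b H (U \ C)) {u} = dl a b H {u} := fun u hu =>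
    dl2 hU hC hv fun x hx => by
      rw [mem_singleton.1 hx]
      exact ⟨(mem_sdiff.1 (mem_erase.1 hu).2).2, (mem_erase.1 hu).1⟩
  obtain ⟨D1, d1, c1, j1⟩ := ih (insert v C)
    (Finset.ssubset_iff_subset_ne.2 ⟨insert_subset hvU hCU', hne⟩)
    (ins a b H (insert v C)) (T ∩ C) v (mem_insert_self _ _) (fun e he => (mem_ins.1 he).2)
    (fun S hS hS0 => by
      rw [e1] at hS
      rw [dl1 hC hv hS]
      exact h2 S (hS.trans hCr) hS0)
    (fun u hu => by rw [s1 u hu]; exact h3 u (mem_inter.1 hu).1)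
  have e2 : (U \ C).erase r = U.erase r \ C := by
    ext x
    simp only [mem_erase, mem_sdiff, and_assoc]
  obtain ⟨D2, d2, c2, j2⟩ := ih (U \ C) (sdiff_ssubset hCU' hC0)
    (ins a b H (U \ C)) ((T \ C).erase v) r (mem_sdiff.2 ⟨hr, hrC⟩) (fun e he => (mem_ins.1 he).2)
    (fun S hS hS0 => by
      rw [e2] at hS
      have hS1 : S ⊆ U.erase r := hS.trans sdiff_subset
      by_cases hvS : v ∈ S
      · exact (h2 _ (union_subset hS1 hCr) (hS0.mono subset_union_left)).trans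
          (card_le_card (dl3 hU hC hv hvS))
      · rw [dl2 hU hC hv fun x hx => ⟨(mem_sdiff.1 (hS hx)).2, fun e => hvS (e ▸ hx)⟩]
        exact h2 S hS1 hS0)
    (fun u hu => by rw [s2 u hu]; exact h3 u (mem_sdiff.1 (mem_erase.1 hu).2).1)
  rw [e1] at c1 j1
  rw [e2] at c2 j2
  refine ⟨D1 ∪ D2, union_subset (d1.trans (filter_subset _ _)) (d2.trans (filter_subset _ _)),
    ?_, fun J hJ S hS hS0 => ?_⟩
  · have h4 := card_union_le D1 D2
    have h5 : ∑ u ∈ C, (if u ∈ T ∩ C then 1 else 2) = ∑ u ∈ C, (if u ∈ T then 1 else 2) :=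
      sum_congr rfl fun u hu => by simp only [mem_inter, hu, and_true]
    have h6 : ∑ u ∈ U.erase r \ C, (if u ∈ (T \ C).erase v then 1 else 2) =
        ∑ u ∈ U.erase r \ C, (if u ∈ T then 1 else 2) :=
      sum_congr rfl fun u hu => by
        obtain ⟨h7, h8⟩ := mem_sdiff.1 hu
        refine if_congr ⟨fun h => (mem_sdiff.1 (mem_erase.1 h).2).1, fun h =>
          mem_erase.2 ⟨?_, mem_sdiff.2 ⟨h, h8⟩⟩⟩ rfl rfl
        rintro rfl
        exact hT (mem_erase.1 h7).1 h
    rw [← sum_sdiff hCr]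
    omega
  · by_cases hS1 : (S \ C).Nonempty
    · obtain ⟨e, he, hd⟩ := j2 J (fun u hu => by
        rw [s2 u hu]; exact hJ u (mem_sdiff.1 (mem_erase.1 hu).2).1) (S \ C)
        (sdiff_subset_sdiff hS Subset.rfl) hS1
      refine ⟨e, ?_, hd.imp_right fun h => mem_union_right _ h⟩
      simp only [Thr.mem_dl, mem_ins, mem_sdiff] at he ⊢
      tauto
    · have hS2 : S ⊆ C := sdiff_eq_empty_iff_subset.1 (not_nonempty_iff_eq_empty.1 hS1)
      obtain ⟨e, he, hd⟩ := j1 J (fun u hu => by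
        rw [s1 u hu]; exact hJ u (mem_inter.1 hu).1) S hS2 hS0
      exact ⟨e, dl1 hC hv hS2 ▸ he, hd.imp_right fun h => mem_union_left _ h⟩

end Pool.Agent.P.MP_92d394_lc.F
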