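import Pool.Agent.P.MP_92d394_lc.F.St2

/-! From the threshold inequality to tours. -/

namespace Pool.Agent.P.MP_92d394_lc.F

open Finset H

theorem cake_sum {E : Type} [DecidableEq E] {w : E → ℝ} {I : Finset ℝ} {μ : ℝ → ℝ}
    (h : ∀ e, w e = ∑ t ∈ I, μ t * if t < w e then 1 else 0) (A : Finset E) :
    ∑ e ∈ A, w e = ∑ t ∈ I, μ t * (A.filter fun e => t < w e).card := by
  rw [sum_congr rfl fun e _ => h e, sum_comm]
  refine sum_congr rfl fun t _ => ?_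
  rw [← mul_sum, sum_boole]

theorem mid (h1 : S_Thr) (h2 : S_Tour) (h3 : S_Cake) : S_Mid := by
  intro V E _ _ _ _ a b w hr hV h0
  obtain ⟨B, H, D, hB, hH, hD, ht⟩ := h1 V E a b w hr hV
  obtain ⟨I, μ, hI, hw⟩ := h3 E w h0
  obtain ⟨z₂, a₂, c₂⟩ := h2 V E a b w H D I μ hV hH hD hI hw
  obtain ⟨v⟩ := hV
  obtain ⟨z₁, a₁, b₁, c₁⟩ := Mid.first hr v h0 hB
  have key : 4 * ∑ e ∈ B, w e + 2 * ∑ e ∈ H, w e + 2 * ∑ t ∈ I, μ t * (D t).card ≤
      4 * ∑ e, w e := by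
    rw [cake_sum hw B, cake_sum hw H, cake_sum hw univ]
    simp only [mul_sum, ← sum_add_distrib]
    refine sum_le_sum fun t k => ?_
    have k1 : (4 * (B.filter fun e => t < w e).card + 2 * (H.filter fun e => t < w e).card +
        2 * (D t).card : ℝ) ≤ 4 * (univ.filter fun e => t < w e).card := by exact_mod_cast ht t
    have k2 := mul_le_mul_of_nonneg_left k1 (hI t k).2
    linarith
  by_contra hno
  push Not at hno
  have n1 := hno z₁ ⟨a₁, b₁⟩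
  have n2 := hno z₂ a₂
  linarith

open Fin22 in
/-- From four regular multigraphs to half integral points. -/
theorem fin (κ : ℝ)
    (h : ∀ (V E : Type) [Fintype V] [DecidableEq V] [Fintype E] [DecidableEq E] (a b : E → V)
      (w : E → ℝ), Reg a b → Nonempty V → (∀ e, 0 ≤ w e) →
      ∃ z : E → ℕ, Ev a b z ∧ ∑ e, w e * z e ≤ κ * ∑ e, w e)
    (n : ℕ) (hn : 3 ≤ n) (y : Fin n → Fin n → ℝ) (hy : y ∈ SubP (Fin n))
    (hh : ∀ u v, y u v = 0 ∨ y u v = 1 / 2 ∨ y u v = 1) (c : Fin n → Fin n → ℝ)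
    (hc : IsMetric c) :
    ∃ x ∈ SubP (Fin n), (∀ u v, ∃ k : ℤ, x u v = k) ∧ dot c x ≤ 2 * κ * dot c y := by
  have cd : ∀ S : Finset (Fin n),
      ((dl (fun e : Ed y => e.1.1) (fun e => e.1.2.1) univ S).card : ℝ) =
        2 * dot (cutm S) y := fun S => by
    rw [← sum_ed hy.1 hy.2.1 hh (cutm_symm S), card_eq_sum_ones, Nat.cast_sum, sum_dl]
    simp
  have hR : Reg (fun e : Ed y => e.1.1) (fun e => e.1.2.1) := by
    refine ⟨fun e => e.2.1.ne, fun v => ?_, fun S p q => ?_⟩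
    · have e := cd {v}
      rw [dot_single hy.1 hy.2.1, hy.2.2.2.1 v] at e
      exact_mod_cast e.trans (by norm_num : (2 : ℝ) * 2 = 4)
    · have e := cd S
      have := cut_two hy p q
      exact_mod_cast (by linarith :
        (4 : ℝ) ≤ (dl (fun e : Ed y => e.1.1) (fun e => e.1.2.1) univ S).card)
  obtain ⟨z, ⟨z1, z2⟩, z3⟩ := h (Fin n) (Ed y) _ _ (fun e => c e.1.1 e.1.2.1) hR
    ⟨⟨0, by omega⟩⟩ fun e => hc.2.2.1 _ _
  obtain ⟨x, x1, x2⟩ := (eul _ _ z z1 z2).tour hc (by rwa [Fintype.card_fin])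
  refine ⟨x, x1.1, x1.2, x2.trans ?_⟩
  rw [dot_z _ _ _ hc.1 hc.2.1]
  rw [sum_ed hy.1 hy.2.1 hh hc.1] at z3
  simp only [mul_comm (c _ _)] at z3
  linarith

theorem fin10 (h : S_Mid) (n : ℕ) (hn : 3 ≤ n) (y : Fin n → Fin n → ℝ) (hy : y ∈ SubP (Fin n))
    (hh : ∀ u v, y u v = 0 ∨ y u v = 1 / 2 ∨ y u v = 1) (c : Fin n → Fin n → ℝ)
    (hc : IsMetric c) :
    ∃ x ∈ SubP (Fin n), (∀ u v, ∃ k : ℤ, x u v = k) ∧ dot c x ≤ 10 / 7 * dot c y := by
  have := fin (5 / 7) (fun V E _ _ _ _ a b w p q r => by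
    obtain ⟨z, z1, z2⟩ := h V E a b w p q r
    exact ⟨z, z1, by linarith⟩) n hn y hy hh c hc
  rwa [show (2 : ℝ) * (5 / 7) = 10 / 7 by norm_num] at this

end Pool.Agent.P.MP_92d394_lc.F
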