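import Pool.Agent.P.MP_92d394_lc.F.St

/-! The certificate when there is no separating node. -/

namespace Pool.Agent.P.MP_92d394_lc.F

open Finset H

namespace Ord

variable {W E : Type} [DecidableEq W] {a b : E → W} {H : Finset E}

/-- the edge `e` joins `x` and `y` -/
def Bt (a b : E → W) (e : E) (x y : W) : Prop := (a e = x ∧ b e = y) ∨ (a e = y ∧ b e = x)

/-- every proper part of `A` is joined to the rest of `A` -/
def Conn (a b : E → W) (H : Finset E) (A : Finset W) : Prop :=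
  ∀ S ⊆ A, S.Nonempty → S ≠ A → ∃ e ∈ H, ∃ x ∈ S, ∃ y ∈ A, y ∉ S ∧ Bt a b e x y

omit [DecidableEq W] in
theorem Bt.symm {e : E} {x y : W} (h : Bt a b e x y) : Bt a b e y x := Or.symm h

omit [DecidableEq W] in
theorem Bt.right {e : E} {x y : W} (h : Bt a b e x y) : a e = y ∨ b e = y := by
  rcases h with h | h
  exacts [Or.inr h.2, Or.inl h.1]

omit [DecidableEq W] in
theorem Bt.uniq {e : E} {x y z : W} (h : Bt a b e x y) (h' : Bt a b e x z) : y = z := by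
  rcases h with ⟨h1, h2⟩ | ⟨h1, h2⟩ <;> rcases h' with ⟨h3, h4⟩ | ⟨h3, h4⟩ <;> simp_all

theorem mem_dl {S : Finset W} {e : E} :
    e ∈ dl a b H S ↔ e ∈ H ∧ ∃ x ∈ S, ∃ y, y ∉ S ∧ Bt a b e x y := by
  simp only [dl, mem_filter, and_congr_right_iff]
  intro _
  constructor
  · intro h
    by_cases h1 : a e ∈ S
    · exact ⟨_, h1, _, fun h2 => h ⟨fun _ => h2, fun _ => h1⟩, Or.inl ⟨rfl, rfl⟩⟩
    · have h2 : b e ∈ S := by_contra fun h2 => h ⟨fun h => absurd h h1, fun h => absurd h h2⟩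
      exact ⟨_, h2, _, h1, Or.inr ⟨rfl, rfl⟩⟩
  · rintro ⟨x, hx, y, hy, ⟨rfl, rfl⟩ | ⟨rfl, rfl⟩⟩ h
    exacts [hy (h.1 hx), hy (h.2 hx)]

omit [DecidableEq W] in
theorem conn_single (t : W) : Conn a b H {t} := fun _ hS hn h =>
  absurd (hn.subset_singleton_iff.1 hS) h

theorem conn_insert {B : Finset W} (hB : Conn a b H B) {e : E} (he : e ∈ H) {y z : W}
    (hz : z ∈ B) (h : Bt a b e y z) : Conn a b H (insert y B) := by
  intro S hS hn hne
  by_cases hyB : y ∈ B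
  · rw [insert_eq_of_mem hyB] at hS hne ⊢
    exact hB S hS hn hne
  have hsub : S.erase y ⊆ B := fun x hx =>
    (mem_insert.1 (hS (mem_of_mem_erase hx))).resolve_left (ne_of_mem_erase hx)
  by_cases h1 : y ∈ S ↔ z ∈ S
  · have h2 : (S.erase y).Nonempty := by
      obtain ⟨x, hx⟩ := hn
      by_cases hxy : x = y
      · exact ⟨z, mem_erase.2 ⟨fun e => hyB (e ▸ hz), h1.1 (hxy ▸ hx)⟩⟩
      · exact ⟨x, mem_erase.2 ⟨hxy, hx⟩⟩
    have h3 : S.erase y ≠ B := fun e => hne <| by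
      have hy : y ∈ S := h1.2 (mem_of_mem_erase (e ▸ hz))
      rw [← e, insert_erase hy]
    obtain ⟨e', he', x, hx, w, hw, hw', hb⟩ := hB _ hsub h2 h3
    exact ⟨e', he', x, mem_of_mem_erase hx, w, mem_insert_of_mem hw,
      fun h4 => hw' (mem_erase.2 ⟨fun e => hyB (e ▸ hw), h4⟩), hb⟩
  · by_cases hy : y ∈ S
    · exact ⟨e, he, y, hy, z, mem_insert_of_mem hz, fun h2 => h1 ⟨fun _ => h2, fun _ => hy⟩, h⟩
    · have hz' : z ∈ S := by_contra fun h2 => h1 ⟨fun h => absurd h hy, fun h => absurd h h2⟩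
      exact ⟨e, he, z, hz', y, mem_insert_self _ _, hy, h.symm⟩

variable {U T : Finset W} {r : W}

/-- no node separates -/
def Sep (a b : E → W) (H : Finset E) (U : Finset W) (r : W) : Prop :=
  ∀ v ∈ U, ∀ C ⊆ (U.erase r).erase v, C.Nonempty →
    (∀ e ∈ dl a b H C, a e = v ∨ b e = v) → insert v C = U

theorem conn_all (hr : r ∈ U) (hU : ∀ e ∈ H, a e ∈ U ∧ b e ∈ U) (hs : Sep a b H U r) :
    Conn a b H (U.erase r) := by
  intro S hS hn hne
  by_contra hc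
  have h1 := hs r hr S (by rwa [erase_idem]) hn fun e he => by
    obtain ⟨he, x, hx, y, hy, hb⟩ := mem_dl.1 he
    have hyU : y ∈ U := by
      rcases hb.right with h | h
      exacts [h ▸ (hU e he).1, h ▸ (hU e he).2]
    have : y = r := by_contra fun h => hc ⟨e, he, x, hx, y, mem_erase.2 ⟨h, hyU⟩, hy, hb⟩
    exact this ▸ hb.right
  refine hne (Subset.antisymm hS fun x hx => ?_)
  exact (mem_insert.1 (h1 ▸ mem_of_mem_erase hx)).resolve_left (ne_of_mem_erase hx)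

theorem step (hr : r ∈ U) (hs : Sep a b H U r) {A : Finset W} (hA : A ⊆ U.erase r)
    (hc : Conn a b H A) {t : W} (ht : t ∈ A) (hne : A ≠ {t}) :
    ∃ y ∈ A, y ≠ t ∧ (∃ e ∈ H, ∃ z, z ∉ A ∧ Bt a b e y z) ∧ Conn a b H (A.erase y) := by
  classical
  have hrA : r ∉ A := fun h => notMem_erase r U (hA h)
  have hsep : ∀ v ∈ A, ∀ C ⊆ A.erase v, C.Nonempty →
      ¬ ∀ e ∈ H, ∀ x ∈ C, ∀ y, y ∉ C → Bt a b e x y → y = v := by
    intro v hv C hC hn h
    have h1 := hs v (mem_of_mem_erase (hA hv)) C (hC.trans (erase_subset_erase _ hA)) hn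
      fun e he => by
        obtain ⟨he, x, hx, y, hy, hb⟩ := mem_dl.1 he
        exact h e he x hx y hy hb ▸ hb.right
    rcases mem_insert.1 (h1 ▸ hr) with h2 | h2
    exacts [hrA (h2 ▸ hv), hrA (mem_of_mem_erase (hC h2))]
  let P : Finset W → Prop := fun Y => Y ⊆ A.erase t ∧ Y.Nonempty ∧ Conn a b H (A \ Y) ∧
    ∃ e ∈ H, ∃ x ∈ Y, ∃ z, z ∉ A ∧ Bt a b e x z
  have h0 : P (A.erase t) := by
    have hn : (A.erase t).Nonempty := by
      rw [nonempty_iff_ne_empty]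
      intro h
      rcases (erase_eq_empty_iff _ _).1 h with h | h
      exacts [notMem_empty t (h ▸ ht), hne h]
    refine ⟨Subset.rfl, hn, ?_, ?_⟩
    · rw [sdiff_erase_self ht]
      exact conn_single t
    · by_contra h
      refine hsep t ht _ Subset.rfl hn fun e he x hx y hy hb => by_contra fun h1 => ?_
      exact h ⟨e, he, x, hx, y, fun h2 => hy (mem_erase.2 ⟨h1, h2⟩), hb⟩
  obtain ⟨Y, hY, hmin⟩ := exists_min_image (A.powerset.filter P) card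
    ⟨_, mem_filter.2 ⟨mem_powerset.2 (erase_subset _ _), h0⟩⟩
  obtain ⟨hYt, hYn, hYc, e2, he2, x2, hx2, z2, hz2, hb2⟩ := (mem_filter.1 hY).2
  have hYA : Y ⊆ A := hYt.trans (erase_subset _ _)
  have key : ∀ e ∈ H, ∀ x ∈ Y, ∀ z ∈ A, z ∉ Y → Bt a b e x z →
      ∀ e' ∈ H, ∀ x' ∈ Y, ∀ z', z' ∉ A → Bt a b e' x' z' → x' = x := by
    intro e he x hx z hz hz' hb e' he' x' hx' z' hz1 hb'
    by_contra hxx
    have hm : x' ∈ Y.erase x := mem_erase.2 ⟨hxx, hx'⟩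
    have hP : P (Y.erase x) := by
      refine ⟨(erase_subset _ _).trans hYt, ⟨x', hm⟩, ?_, e', he', x', hm, z', hz1, hb'⟩
      rw [sdiff_erase (hYA hx)]
      exact conn_insert hYc he (mem_sdiff.2 ⟨hz, hz'⟩) hb
    have := hmin _ (mem_filter.2 ⟨mem_powerset.2 ((erase_subset _ _).trans hYA), hP⟩)
    exact absurd (card_erase_lt_of_mem hx) (not_lt.2 this)
  obtain ⟨e1, he1, y, hy, z1, hz1, hz1', hb1⟩ := hc Y hYA hYn fun h =>
    notMem_erase t A (hYt (h ▸ ht))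
  obtain rfl : x2 = y := key e1 he1 y hy z1 hz1 hz1' hb1 e2 he2 x2 hx2 z2 hz2 hb2
  have hY1 : Y.erase x2 = ∅ := by
    by_contra hn
    refine hsep x2 (hYA hy) _ (erase_subset_erase _ hYA) (nonempty_iff_ne_empty.2 hn)
      fun e he x hx w hw hb => by_contra fun h1 => ?_
    have hwY : w ∉ Y := fun h => hw (mem_erase.2 ⟨h1, h⟩)
    by_cases hwA : w ∈ A
    · exact ne_of_mem_erase hx
        (key e he x (mem_of_mem_erase hx) w hwA hwY hb e2 he2 x2 hx2 z2 hz2 hb2).symm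
    · exact ne_of_mem_erase hx
        (key e1 he1 x2 hy z1 hz1 hz1' hb1 e he x (mem_of_mem_erase hx) w hwA hb)
  have hY2 : Y = {x2} := by rw [← insert_erase hy, hY1]; rfl
  refine ⟨x2, hYA hy, ne_of_mem_erase (hYt hy), ⟨e2, he2, z2, hz2, hb2⟩, ?_⟩
  rwa [hY2, sdiff_singleton_eq_erase] at hYc

variable [DecidableEq E]

/-- two sides of a node -/
theorem sides (N L R : Finset E) (hL : L ⊆ N) (hR : R ⊆ N) (hN : N ⊆ L ∪ R) (hL' : L.Nonempty)
    (hR' : R.Nonempty) (p : Prop) [Decidable p] (h3 : p → N.card = 3) :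
    ∃ L' ⊆ L, ∃ R' ⊆ R, L'.card + R'.card ≤ (if p then 1 else 2) ∧
      ∀ J : Finset E, (p → (J ∩ N).card ≤ 1) →
        (∃ e ∈ L, e ∉ J ∨ e ∈ L') ∧ ∃ e ∈ R, e ∉ J ∨ e ∈ R' := by
  obtain ⟨l, hl⟩ := hL'
  obtain ⟨m, hm⟩ := hR'
  have big : ∀ X ⊆ N, 2 ≤ X.card → ∀ J : Finset E, (J ∩ N).card ≤ 1 →
      ∃ e ∈ X, e ∉ J ∨ e ∈ (∅ : Finset E) := by
    intro X hX h2 J hJ
    by_contra h
    have : X ⊆ J ∩ N := fun e he =>
      mem_inter.2 ⟨by_contra fun h1 => h ⟨e, he, Or.inl h1⟩, hX he⟩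
    have := card_le_card this
    omega
  by_cases hp : p
  · rw [if_pos hp]
    have h1 := (card_le_card hN).trans (card_union_le L R)
    rw [h3 hp] at h1
    rcases le_or_gt 2 L.card with h | h
    · exact ⟨∅, empty_subset _, {m}, singleton_subset_iff.2 hm, by simp, fun J hJ =>
        ⟨big L hL h J (hJ hp), m, hm, Or.inr (mem_singleton_self _)⟩⟩
    · exact ⟨{l}, singleton_subset_iff.2 hl, ∅, empty_subset _, by simp, fun J hJ =>
        ⟨⟨l, hl, Or.inr (mem_singleton_self _)⟩, big R hR (by omega) J (hJ hp)⟩⟩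
  · rw [if_neg hp]
    exact ⟨{l}, singleton_subset_iff.2 hl, {m}, singleton_subset_iff.2 hm, by simp, fun J _ =>
      ⟨⟨l, hl, Or.inr (mem_singleton_self _)⟩, m, hm, Or.inr (mem_singleton_self _)⟩⟩

theorem claim (hr : r ∈ U) (hs : Sep a b H U r) (hT : ∀ u ∈ T, (dl a b H {u}).card = 3)
    {t : W} {e0 : E} (he0 : e0 ∈ H) (hb0 : Bt a b e0 t r) (n : ℕ) :
    ∀ A : Finset W, A.card = n → A ⊆ U.erase r → t ∈ A → Conn a b H A →
      ∃ D1 ⊆ H, ∃ D2 ⊆ H, D1.card + D2.card ≤ ∑ u ∈ A, (if u ∈ T then 1 else 2) ∧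
        ∀ J : Finset E, (∀ u ∈ T, (J ∩ dl a b H {u}).card ≤ 1) → ∀ S ⊆ A, S.Nonempty →
          (∃ e ∈ dl a b H S, e ∉ J ∨ e ∈ D1) ∧
          ∃ e ∈ H, (∃ x ∈ S, ∃ y, (y = r ∨ (y ∈ A ∧ y ∉ S)) ∧ Bt a b e x y) ∧
            (e ∉ J ∨ e ∈ D2) := by
  classical
  induction n using Nat.strong_induction_on with
  | _ n ih =>
  intro A hn hA ht hc
  by_cases hne : A = {t}
  · subst hne
    have htr : r ∉ ({t} : Finset W) := fun h => notMem_erase r U (hA h)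
    have h0 : e0 ∈ dl a b H {t} := mem_dl.2 ⟨he0, t, ht, r, htr, hb0⟩
    obtain ⟨L', hL', R', hR', h1, h2⟩ := sides (dl a b H {t}) (dl a b H {t}) {e0} Subset.rfl
      (singleton_subset_iff.2 h0) subset_union_left ⟨e0, h0⟩ (singleton_nonempty _) (t ∈ T) (hT t)
    refine ⟨L', hL'.trans (filter_subset _ _), R', hR'.trans (singleton_subset_iff.2 he0),
      by rwa [sum_singleton], fun J hJ S hS hSn => ?_⟩
    obtain rfl := hSn.subset_singleton_iff.1 hS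
    obtain ⟨h3, e, he, h4⟩ := h2 J (hJ t)
    obtain rfl := mem_singleton.1 he
    exact ⟨h3, e, he0, ⟨t, ht, r, Or.inl rfl, hb0⟩, h4⟩
  obtain ⟨y, hy, hyt, ⟨e2, he2, z2, hz2, hb2⟩, hc'⟩ := step hr hs hA hc ht hne
  obtain ⟨D1, hD1, D2, hD2, hD, hJ'⟩ := ih _ (hn ▸ card_erase_lt_of_mem hy) (A.erase y) rfl
    ((erase_subset _ _).trans hA) (mem_erase.2 ⟨hyt.symm, ht⟩) hc'
  obtain ⟨e1, he1, x1, hx1, z1, hz1, hz1', hb1⟩ := hc {y} (singleton_subset_iff.2 hy)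
    (singleton_nonempty _) fun h => hyt (mem_singleton.1 (h ▸ ht)).symm
  obtain rfl := mem_singleton.1 hx1
  obtain ⟨L', hL', R', hR', h1, h2⟩ := sides (dl a b H {x1})
    (H.filter fun e => ∃ z, z ∉ A ∧ Bt a b e x1 z)
    (H.filter fun e => ∃ z ∈ A.erase x1, Bt a b e x1 z)
    (fun e he => by
      obtain ⟨he, z, hz, hb⟩ := mem_filter.1 he
      exact mem_dl.2 ⟨he, x1, hx1, z, fun h => hz (mem_singleton.1 h ▸ hy), hb⟩)
    (fun e he => by
      obtain ⟨he, z, hz, hb⟩ := mem_filter.1 he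
      exact mem_dl.2 ⟨he, x1, hx1, z, fun h => ne_of_mem_erase hz (mem_singleton.1 h), hb⟩)
    (fun e he => by
      obtain ⟨he', x, hx, z, hz, hb⟩ := mem_dl.1 he
      rw [mem_singleton.1 hx] at hb
      by_cases h : z ∈ A
      · exact mem_union_right _ (mem_filter.2
          ⟨he', z, mem_erase.2 ⟨fun e => hz (mem_singleton.2 e), h⟩, hb⟩)
      · exact mem_union_left _ (mem_filter.2 ⟨he', z, h, hb⟩))
    ⟨e2, mem_filter.2 ⟨he2, z2, hz2, hb2⟩⟩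
    ⟨e1, mem_filter.2 ⟨he1, z1, mem_erase.2 ⟨fun e => hz1' (mem_singleton.2 e), hz1⟩, hb1⟩⟩
    (x1 ∈ T) (hT x1)
  refine ⟨D1 ∪ L', union_subset hD1 (hL'.trans (filter_subset _ _)), D2 ∪ R',
    union_subset hD2 (hR'.trans (filter_subset _ _)), ?_, fun J hJ S hS hSn => ⟨?_, ?_⟩⟩
  · rw [← add_sum_erase _ _ hy]
    have := card_union_le D1 L'
    have := card_union_le D2 R'
    omega
  · by_cases h : x1 ∈ S
    · obtain ⟨e, he, h3⟩ := (h2 J (hJ x1)).1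
      obtain ⟨he, z, hz, hb⟩ := mem_filter.1 he
      exact ⟨e, mem_dl.2 ⟨he, x1, h, z, fun h4 => hz (hS h4), hb⟩,
        h3.imp_right (mem_union_right _)⟩
    · obtain ⟨e, he, h3⟩ := (hJ' J hJ S (subset_erase.2 ⟨hS, h⟩) hSn).1
      exact ⟨e, he, h3.imp_right (mem_union_left _)⟩
  · by_cases h : (S.erase x1).Nonempty
    · obtain ⟨e, he, ⟨x, hx, z, hz, hb⟩, h3⟩ := (hJ' J hJ _ (erase_subset_erase _ hS) h).2
      exact ⟨e, he, ⟨x, mem_of_mem_erase hx, z, hz.imp_right fun h4 =>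
        ⟨mem_of_mem_erase h4.1, fun h5 => h4.2 (mem_erase.2 ⟨ne_of_mem_erase h4.1, h5⟩)⟩, hb⟩,
        h3.imp_right (mem_union_left _)⟩
    · have h4 : ∀ x ∈ S, x = x1 := fun x hx => by_contra fun h5 => h ⟨x, mem_erase.2 ⟨h5, hx⟩⟩
      obtain ⟨x, hx⟩ := hSn
      obtain ⟨e, he, h3⟩ := (h2 J (hJ x1)).2
      obtain ⟨he, z, hz, hb⟩ := mem_filter.1 he
      exact ⟨e, he, ⟨x1, h4 x hx ▸ hx, z, Or.inr ⟨mem_of_mem_erase hz,
        fun h5 => ne_of_mem_erase hz (h4 z h5)⟩, hb⟩, h3.imp_right (mem_union_right _)⟩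

end Ord

theorem ord : S_Ord := by
  intro W E _ _ a b H U T r hr hU h2 hT hs
  rcases (U.erase r).eq_empty_or_nonempty with h0 | h0
  · refine ⟨∅, empty_subset _, by simp, fun J _ S hS hn => ?_⟩
    rw [h0, subset_empty] at hS
    exact absurd hS hn.ne_empty
  obtain ⟨e0, he1⟩ : (dl a b H (U.erase r)).Nonempty :=
    card_pos.1 (lt_of_lt_of_le two_pos (h2 _ Subset.rfl h0))
  obtain ⟨he0, t, ht, y, hy, hb⟩ := Ord.mem_dl.1 he1
  have hyU : y ∈ U := by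
    rcases hb.right with h | h
    exacts [h ▸ (hU e0 he0).1, h ▸ (hU e0 he0).2]
  obtain rfl : y = r := by_contra fun h => hy (mem_erase.2 ⟨h, hyU⟩)
  obtain ⟨D1, hD1, D2, hD2, hD, hJ⟩ :=
    Ord.claim hr hs hT he0 hb _ _ rfl Subset.rfl ht (Ord.conn_all hr hU hs)
  rcases le_total D1.card D2.card with h | h
  · exact ⟨D1, hD1, by omega, fun J h1 S hS hn => (hJ J h1 S hS hn).1⟩
  · refine ⟨D2, hD2, by omega, fun J h1 S hS hn => ?_⟩
    obtain ⟨e, he, ⟨x, hx, z, hz, hb'⟩, h3⟩ := (hJ J h1 S hS hn).2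
    refine ⟨e, Ord.mem_dl.2 ⟨he, x, hx, z, fun h4 => ?_, hb'⟩, h3⟩
    rcases hz with rfl | hz
    exacts [notMem_erase _ _ (hS h4), hz.2 h4]

end Pool.Agent.P.MP_92d394_lc.F
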