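import Pool.Agent.P.MP_92d394_lc.F.St2
import Pool.Agent.P.MP_92d394_lc.H.Thr
import Pool.Agent.P.MP_92d394_lc.H.Kru

/-! The threshold inequality for the bound 10/7. -/

namespace Pool.Agent.P.MP_92d394_lc.F

open Finset H

namespace Thr

variable {V E : Type} [Fintype V] [DecidableEq V] [Fintype E]

/-- The inequality for the edges between the classes of one partition. -/
theorem core {a b : E → V} (hR : Reg a b) (H : Finset E) (r : V) {c : V → Finset V}
    (h1 : ∀ v, v ∈ c v) (h2 : ∀ u v, u ∈ c v → c u = c v)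
    (h3 : ∀ v, (dl a b univ (c v)).card = 4 → (dl a b H (c v)).card ≤ 3) (n d : ℕ)
    (hn : n + 1 ≤ (univ.image c).card)
    (hd : 2 * d ≤ ∑ X ∈ (univ.image c).erase (c r), (if (dl a b H X).card = 3 then 1 else 2)) :
    4 * n + 2 * (H.filter fun e => c (a e) ≠ c (b e)).card + 2 * d ≤
      4 * (univ.filter fun e => c (a e) ≠ c (b e)).card := by
  have hP : c r ∈ univ.image c := mem_image_of_mem _ (mem_univ _)
  have hcard := card_erase_of_mem hP
  have hs1 := MP_92d394_lc.H.Thr.shake a b univ c h1 h2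
  have hs2 := MP_92d394_lc.H.Thr.shake a b H c h1 h2
  rw [← add_sum_erase _ _ hP] at hs1 hs2
  have hY0 := MP_92d394_lc.H.Thr.dl_le a b H (c r)
  have hsum : ∑ Y ∈ (univ.image c).erase (c r),
      (4 + (dl a b H Y).card + if (dl a b H Y).card = 3 then 1 else 2) ≤
      ∑ Y ∈ (univ.image c).erase (c r), 2 * (dl a b univ Y).card := by
    refine sum_le_sum fun Y hY => ?_
    obtain ⟨hne, hY⟩ := mem_erase.1 hY
    obtain ⟨v, -, rfl⟩ := mem_image.1 hY
    have hrv : r ∉ c v := fun k => hne (h2 r v k).symm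
    have k2 := hR.2.2 (c v) ⟨v, h1 v⟩ ⟨r, mem_compl.2 hrv⟩
    have k3 := MP_92d394_lc.H.Thr.dl_le a b H (c v)
    have k4 := h3 v
    obtain ⟨k, hk⟩ := MP_92d394_lc.H.Thr.even_dl hR (c v)
    split_ifs <;> omega
  rw [sum_add_distrib, sum_add_distrib, sum_const, smul_eq_mul, ← mul_sum, hcard] at hsum
  omega

end Thr

theorem thr (h : S_Lev) : S_Thr := by
  classical
  intro V E _ _ _ _ a b w hR hV
  obtain ⟨B, -, hB, hb⟩ := Kru.main a b w univ
  obtain ⟨r⟩ := hV
  set ρ : ℝ → V → Finset V := fun t => Kru.cl a b (univ.filter fun e => w e ≤ t) with hρ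
  have hρ1 : ∀ t v, v ∈ ρ t v := fun t v => Kru.self_mem a b _ v
  have hρ2 : ∀ t u v, u ∈ ρ t v → ρ t u = ρ t v := fun t u v k => Kru.cl_eq k
  have hρ3 : ∀ s t v, s ≤ t → ρ s v ⊆ ρ t v := by
    intro s t v hst
    apply Kru.cl_mono
    intro e he
    rw [mem_filter] at he ⊢
    exact ⟨he.1, he.2.trans hst⟩
  have hρ4 : ∀ t e, w e ≤ t → ρ t (a e) = ρ t (b e) := fun t e he =>
    Kru.cl_edge (mem_filter.mpr ⟨mem_univ e, he⟩)
  have hρ5 : ∀ t, (B.filter fun e => t < w e).card + 1 ≤ (univ.image (ρ t)).card := by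
    intro t
    have k1 : 1 ≤ Kru.pc a b univ := card_pos.mpr ⟨_, mem_image_of_mem _ (mem_univ r)⟩
    have k2 := hb t
    exact le_trans (by omega) k2
  set L : Finset (Finset V) := univ.filter fun X =>
    ∃ t v, X = ρ t v ∧ (dl a b univ X).card = 4 with hLdef
  have hmem : ∀ X, X ∈ L ↔ ∃ t v, X = ρ t v ∧ (dl a b univ X).card = 4 := by
    intro X
    rw [hLdef, mem_filter]
    exact ⟨fun k => k.2, fun k => ⟨mem_univ _, k⟩⟩
  have hL4 : ∀ X ∈ L, (dl a b univ X).card = 4 := by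
    intro X hX
    obtain ⟨t, v, -, k⟩ := (hmem X).1 hX
    exact k
  have hch : ∀ s t u v, s ≤ t → ρ s u ⊆ ρ t v ∨ Disjoint (ρ s u) (ρ t v) := by
    intro s t u v hst
    by_cases hd : Disjoint (ρ s u) (ρ t v)
    · exact Or.inr hd
    · obtain ⟨x, hx1, hx2⟩ := not_disjoint_iff.1 hd
      left
      rw [← hρ2 s x u hx1, ← hρ2 t x v hx2]
      exact hρ3 s t x hst
  have hLam : Lam L := by
    intro X hX Y hY
    obtain ⟨s, u, rfl, -⟩ := (hmem X).1 hX
    obtain ⟨t, v, rfl, -⟩ := (hmem Y).1 hY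
    rcases le_total s t with k | k
    · exact (hch s t u v k).imp id Or.inr
    · exact Or.inr ((hch t s v u k).imp id fun k => k.symm)
  obtain ⟨H, hT, hH⟩ := MP_92d394_lc.H.sub V E a b L hR hL4 hLam
  choose D hD1 hD2 hD3 using fun t => h V E a b H (ρ t) r hT (hρ1 t) (hρ2 t)
  refine ⟨B, H, D, fun S hS hS' => ?_, hT, fun t J hJ S hS hS' hl => ?_, fun t => ?_⟩
  · have k := hR.2.2 S hS hS'
    rw [nonempty_iff_ne_empty]
    intro k0
    rw [hB S k0] at k
    simp at k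
  · refine hD3 t J hJ S hS hS' fun v hv u hu => ?_
    refine (Kru.mem_cl.1 hu S (Kru.dl_empty.2 fun e he => hl e (mem_filter.1 he).2)).2 hv
  have hcore := Thr.core hR H r (hρ1 t) (hρ2 t)
    (fun v h4 => hH _ ((hmem _).2 ⟨t, v, rfl, h4⟩)) _ _ (hρ5 t) (hD2 t)
  have hheavy : ∀ e, ρ t (a e) ≠ ρ t (b e) → t < w e := fun e he =>
    lt_of_not_ge fun k => he (hρ4 t e k)
  have e1 := card_filter_add_card_filter_not (s := H.filter fun e => t < w e)
    (fun e => ρ t (a e) ≠ ρ t (b e))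
  have e2 := card_filter_add_card_filter_not (s := univ.filter fun e => t < w e)
    (fun e => ρ t (a e) ≠ ρ t (b e))
  have e3 : ∀ A : Finset E, ((A.filter fun e => t < w e).filter
      fun e => ρ t (a e) ≠ ρ t (b e)) = A.filter fun e => ρ t (a e) ≠ ρ t (b e) := by
    intro A
    ext e
    simp only [mem_filter]
    exact ⟨fun k => ⟨k.1.1, k.2⟩, fun k => ⟨⟨k.1, hheavy e k.2⟩, k.2⟩⟩
  rw [e3] at e1 e2
  have e5 : ((H.filter fun e => t < w e).filter fun e => ¬ ρ t (a e) ≠ ρ t (b e)).card ≤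
      ((univ.filter fun e => t < w e).filter fun e => ¬ ρ t (a e) ≠ ρ t (b e)).card :=
    card_le_card (filter_subset_filter _ (filter_subset_filter _ (subset_univ _)))
  omega

end Pool.Agent.P.MP_92d394_lc.F
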