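import Pool.Agent.P.MP_92d394_lc.F.St

/-! The multigraph built from `H`, a join and a connector. -/

namespace Pool.Agent.P.MP_92d394_lc.F

open Finset H

namespace Tour

variable {E : Type} [DecidableEq E]

theorem sum_g (w : E → ℝ) (D : ℝ → Finset E) (I : Finset ℝ) (μ : ℝ → ℝ) (A : Finset E) :
    ∑ e ∈ A, (-w e + 2 * ∑ t ∈ I, μ t * if e ∈ D t then 1 else 0) =
      -∑ e ∈ A, w e + 2 * ∑ t ∈ I, μ t * ((D t ∩ A).card : ℝ) := by
  rw [sum_add_distrib, sum_neg_distrib, ← mul_sum, sum_comm]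
  refine congrArg (fun x : ℝ => -∑ e ∈ A, w e + 2 * x) (sum_congr rfl fun t _ => ?_)
  rw [← mul_sum, sum_boole, filter_mem_eq_inter, inter_comm]

omit [DecidableEq E] in
theorem sum_cake (w : E → ℝ) (I : Finset ℝ) (μ : ℝ → ℝ)
    (hw : ∀ e, w e = ∑ t ∈ I, μ t * if t < w e then 1 else 0) (A : Finset E) :
    ∑ e ∈ A, w e = ∑ t ∈ I, μ t * ((A.filter fun e => t < w e).card : ℝ) := by
  rw [sum_congr rfl fun e _ => hw e, sum_comm]
  refine sum_congr rfl fun t _ => ?_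
  rw [← mul_sum, sum_boole]

theorem dl_sdiff {V : Type} [DecidableEq V] (a b : E → V) (H J : Finset E) (S : Finset V) :
    dl a b (H \ J) S = dl a b H S \ J := by
  ext e
  simp only [Thr.mem_dl, mem_sdiff]
  tauto

end Tour

theorem tour (h1 : S_Join) (h2 : S_Con) : S_Tour := by
  intro V E _ _ _ _ a b w H D I μ hV hH hR hI hw
  obtain ⟨J, hJH, j1, j2, j3⟩ := h1 V E a b H
    (fun e => -w e + 2 * ∑ t ∈ I, μ t * if e ∈ D t then 1 else 0) hV hH
  obtain ⟨M, m1, m2⟩ := h2 V E a b w (H \ J) (fun t => D t ∩ J) hV fun t S p1 p2 hS => by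
    obtain ⟨e, he, he'⟩ := hR t J (fun X hX => (j2 X hX).le) S p1 p2 hS
    rw [Thr.mem_dl] at he
    by_cases hJ : e ∈ J
    · exact Or.inr ⟨e, Thr.mem_dl.2 ⟨mem_inter.2 ⟨he'.resolve_left (not_not.2 hJ), hJ⟩, he.2⟩⟩
    · exact Or.inl ⟨e, Thr.mem_dl.2 ⟨mem_sdiff.2 ⟨he.1, hJ⟩, he.2⟩⟩
  have hz : ∀ S, ∑ e ∈ dl a b univ S,
      ((if e ∈ H \ J then 1 else 0) + 2 * if e ∈ M then 1 else 0) =
        (dl a b (H \ J) S).card + 2 * (dl a b M S).card := fun S => by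
    rw [sum_add_distrib, ← mul_sum, Mid.sum_ind, Mid.sum_ind]
  refine ⟨fun e => (if e ∈ H \ J then 1 else 0) + 2 * if e ∈ M then 1 else 0,
    ⟨fun S => ?_, fun S p1 p2 => ?_⟩, ?_⟩
  · rw [hz, Tour.dl_sdiff, Nat.even_iff]
    have e1 := card_sdiff_add_card_inter (dl a b H S) J
    have e2 := j1 S
    rw [inter_comm] at e2
    omega
  · rw [hz]
    rcases m1 S p1 p2 with h | h
    · have := card_pos.2 h
      omega
    · have := card_pos.2 h
      omega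
  · have c1 : ∑ e, w e * (((if e ∈ H \ J then 1 else 0) + 2 * if e ∈ M then 1 else 0 : ℕ) : ℝ) =
        ∑ e ∈ H \ J, w e + 2 * ∑ e ∈ M, w e := by
      rw [← Mid.sum_w w (H \ J), ← Mid.sum_w w M, mul_sum, ← sum_add_distrib]
      refine sum_congr rfl fun e _ => ?_
      rw [Nat.cast_add, Nat.cast_mul, Nat.cast_ofNat]
      ring
    have c2 : ∑ e ∈ H \ J, w e + ∑ e ∈ J, w e = ∑ e ∈ H, w e := sum_sdiff hJH
    have c3 : ∑ e ∈ M, w e ≤ ∑ t ∈ I, μ t * ((D t ∩ J).card : ℝ) := by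
      rw [Tour.sum_cake w I μ hw M]
      refine sum_le_sum fun t ht => mul_le_mul_of_nonneg_left ?_ (hI t ht).2
      exact_mod_cast m2 t (hI t ht).1
    have c4 : ∑ t ∈ I, μ t * ((D t ∩ H).card : ℝ) ≤ ∑ t ∈ I, μ t * ((D t).card : ℝ) := by
      refine sum_le_sum fun t ht => mul_le_mul_of_nonneg_left ?_ (hI t ht).2
      exact_mod_cast card_le_card inter_subset_left
    rw [Tour.sum_g, Tour.sum_g] at j3
    rw [c1]
    linarith

end Pool.Agent.P.MP_92d394_lc.F
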