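import Pool.Agent.P.MP_92d394_lc.F.Join
import Pool.Agent.P.MP_92d394_lc.F.Ord
import Pool.Agent.P.MP_92d394_lc.F.MS
import Pool.Agent.P.MP_92d394_lc.F.Lev
import Pool.Agent.P.MP_92d394_lc.F.Conn
import Pool.Agent.P.MP_92d394_lc.F.Tour
import Pool.Agent.P.MP_92d394_lc.F.Thr
import Pool.Agent.P.MP_92d394_lc.F.Mid

/-! The bound 10/7 for half integral points. -/

namespace Pool.Agent.P.MP_92d394_lc.F

theorem ten_sevenths (n : ℕ) (hn : 3 ≤ n) (y : Fin n → Fin n → ℝ) (hy : y ∈ SubP (Fin n))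
    (hh : ∀ u v, y u v = 0 ∨ y u v = 1 / 2 ∨ y u v = 1) (c : Fin n → Fin n → ℝ)
    (hc : IsMetric c) :
    ∃ x ∈ SubP (Fin n), (∀ u v, ∃ k : ℤ, x u v = k) ∧ dot c x ≤ 10 / 7 * dot c y :=
  fin10 (mid (thr (lev (ms ord))) (tour join con) cake) n hn y hy hh c hc

end Pool.Agent.P.MP_92d394_lc.F
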