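import Pool.Agent.P.MP_92d394_lc.F.St

/-! A join for arbitrary real weights that meets every three element cut once. -/

namespace Pool.Agent.P.MP_92d394_lc.F

open Finset H

namespace Join

variable {V E : Type} [Fintype V] [DecidableEq V] [Fintype E] [DecidableEq E]

omit [Fintype E] in
theorem card_ind (J D : Finset E) : (J ∩ D).card = ∑ e ∈ D, if e ∈ J then 1 else 0 := by
  rw [← card_filter, filter_mem_eq_inter, inter_comm]

/-- A join of cost at most one third. -/
theorem step {a b : E → V} (v : V) {H : Finset E} (hH : Two a b H) (g : E → ℝ) :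
    ∃ J ⊆ H, (∀ S, (J ∩ dl a b H S).card % 2 = (dl a b H S).card % 2) ∧
      3 * ∑ e ∈ J, g e ≤ ∑ e ∈ H, g e := by
  set P := H.filter fun e => 0 ≤ g e with hP
  have dP : ∀ S, dl a b P S = (dl a b H S).filter fun e => 0 ≤ g e := fun S => filter_comm _ _ _
  have pr : ∀ S, par (Sum.elim (Mid.rs P v a) (Mid.rs P v b)) (Mid.col S) =
      ((dl a b P S).card : ZMod 2) := fun S => by
    rw [par, Fintype.sum_sum_type, ← sum_add_distrib, ← Mid.cut_rs a b P v S]
    simpa using sum_card (Mid.rs P v a) (Mid.rs P v b) univ (Mid.col S)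
  set x : E → ℝ := fun e => if 0 ≤ g e then 1 / 3 else 2 / 3 with hx
  have x0 : ∀ e, 0 ≤ x e := fun e => by
    simp only [hx]
    split_ifs <;> norm_num
  have fe : Feas (Mid.rs H v a) (Mid.rs H v b) (Sum.elim (Mid.rs P v a) (Mid.rs P v b)) x :=
    ⟨x0, fun φ p => by
      obtain ⟨S, rfl⟩ := Mid.ex_col φ
      rw [pr] at p
      obtain ⟨m, hm⟩ := (ZMod.natCast_eq_one_iff_odd).1 p
      obtain ⟨p1, p2⟩ := Mid.proper (card_pos.1 (show 0 < (dl a b P S).card by omega))
      have p3 := hH S p1 p2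
      have p4 := card_filter_add_card_filter_not (s := dl a b H S) fun e => 0 ≤ g e
      rw [dP] at hm
      have p5 : 3 ≤ ((dl a b H S).filter fun e => 0 ≤ g e).card +
          2 * ((dl a b H S).filter fun e => ¬ 0 ≤ g e).card := by omega
      have p6 : (3 : ℝ) ≤ ((dl a b H S).filter fun e => 0 ≤ g e).card +
          2 * ((dl a b H S).filter fun e => ¬ 0 ≤ g e).card := by exact_mod_cast p5
      rw [Mid.cut_rs, hx, sum_ite, sum_const, sum_const, nsmul_eq_mul, nsmul_eq_mul]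
      linarith⟩
  obtain ⟨J, hJ, jo, co⟩ := tj _ _ _ _ fe (fun e => |g e|) fun e => abs_nonneg _
  have hA : act (Mid.rs H v a) (Mid.rs H v b) x ⊆ H := fun e he => by
    by_contra h
    exact (mem_act.1 he).1 (by simp [Mid.rs, h])
  refine ⟨H.filter fun e => (e ∈ J ↔ 0 ≤ g e), filter_subset _ _, fun S => ?_, ?_⟩
  · have h1 := jo (Mid.col S)
    rw [pr, sum_card, Mid.cut_rs, ZMod.natCast_eq_natCast_iff', dP, card_ind, card_filter] at h1
    have h2 : ∑ e ∈ dl a b H S, ((if e ∈ H.filter fun e => (e ∈ J ↔ 0 ≤ g e) then 1 else 0) +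
        ((if e ∈ J then 1 else 0) + if 0 ≤ g e then 1 else 0)) =
        ∑ e ∈ dl a b H S, (1 + 2 * if e ∈ J ∧ 0 ≤ g e then 1 else 0) :=
      sum_congr rfl fun e he => by
        have h3 : e ∈ H := (mem_filter.1 he).1
        by_cases p : e ∈ J <;> by_cases q : 0 ≤ g e <;> simp [p, q, h3]
    rw [sum_add_distrib, sum_add_distrib, sum_add_distrib, ← mul_sum, ← card_eq_sum_ones] at h2
    rw [card_ind]
    omega
  · have h1 := co.trans (sum_le_sum_of_subset_of_nonneg hA
      fun e _ _ => mul_nonneg (abs_nonneg _) (x0 e))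
    have h2 : ∑ e ∈ J, |g e| = ∑ e ∈ H, if e ∈ J then |g e| else 0 := by
      rw [sum_ite_mem, inter_eq_right.2 (hJ.trans hA)]
    have h3 : 3 * ∑ e ∈ H, (if (e ∈ J ↔ 0 ≤ g e) then g e else 0) + 3 * ∑ e ∈ H, |g e| * x e =
        ∑ e ∈ H, g e + 3 * ∑ e ∈ H, if e ∈ J then |g e| else 0 := by
      rw [mul_sum, mul_sum, mul_sum, ← sum_add_distrib, ← sum_add_distrib]
      refine sum_congr rfl fun e _ => ?_
      by_cases q : 0 ≤ g e
      · rw [abs_of_nonneg q]
        by_cases p : e ∈ J <;> simp [hx, p, q] <;> ring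
      · rw [abs_of_neg (not_le.1 q)]
        by_cases p : e ∈ J <;> simp [hx, p, q] <;> ring
    rw [sum_filter]
    linarith

end Join

theorem join : S_Join := by
  intro V E _ _ _ _ a b H g ⟨v⟩ hH
  set T := univ.filter fun X : Finset V => (dl a b H X).card = 3 with hT
  set c : E → ℝ := fun e => ∑ X ∈ T, if e ∈ dl a b H X then 1 else 0 with hc
  set M := 1 + 2 * ∑ e, |g e| with hM
  have g0 : 0 ≤ ∑ e, |g e| := sum_nonneg fun _ _ => abs_nonneg _
  have cs : ∀ J : Finset E, ∑ e ∈ J, c e = ∑ X ∈ T, ((J ∩ dl a b H X).card : ℝ) := fun J => by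
    rw [sum_comm]
    exact sum_congr rfl fun X _ => by rw [sum_boole, filter_mem_eq_inter]
  obtain ⟨J, hJ, jo, co⟩ := Join.step v hH fun e => g e + M * c e
  rw [sum_add_distrib, sum_add_distrib, ← mul_sum, ← mul_sum, cs, cs] at co
  have e2 : ∑ X ∈ T, ((H ∩ dl a b H X).card : ℝ) = 3 * ∑ _X ∈ T, (1 : ℝ) := by
    rw [mul_sum]
    exact sum_congr rfl fun X hX => by
      rw [inter_eq_right.2 (show dl a b H X ⊆ H from filter_subset _ _), (mem_filter.1 hX).2]
      norm_num
  have o : ∀ X ∈ T, (1 : ℝ) ≤ (J ∩ dl a b H X).card := fun X hX => by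
    have := jo X
    rw [(mem_filter.1 hX).2] at this
    exact_mod_cast (by omega : 1 ≤ (J ∩ dl a b H X).card)
  have one : ∀ S, (dl a b H S).card = 3 → (J ∩ dl a b H S).card = 1 := fun S p => by
    by_contra h
    have hS : S ∈ T := mem_filter.2 ⟨mem_univ _, p⟩
    have h1 : (2 : ℝ) ≤ (J ∩ dl a b H S).card := by
      have := jo S
      rw [p] at this
      exact_mod_cast (by omega : 2 ≤ (J ∩ dl a b H S).card)
    have h2 := single_le_sum (f := fun X => ((J ∩ dl a b H X).card : ℝ) - 1)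
      (fun X hX => sub_nonneg.2 (o X hX)) hS
    rw [sum_sub_distrib] at h2
    have h3 : ∑ e ∈ H, g e ≤ ∑ e, |g e| := (sum_le_sum fun e _ => le_abs_self _).trans
      (sum_le_univ_sum_of_nonneg fun _ => abs_nonneg _)
    have h4 : ∑ e ∈ J, -g e ≤ ∑ e, |g e| := (sum_le_sum fun e _ => neg_le_abs _).trans
      (sum_le_univ_sum_of_nonneg fun _ => abs_nonneg _)
    rw [sum_neg_distrib] at h4
    have h5 : M * (∑ _X ∈ T, (1 : ℝ) + 1) ≤ M * ∑ X ∈ T, ((J ∩ dl a b H X).card : ℝ) :=
      mul_le_mul_of_nonneg_left (by linarith) (by linarith)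
    rw [e2] at co
    linarith
  refine ⟨J, hJ, jo, one, ?_⟩
  have e1 : ∑ X ∈ T, ((J ∩ dl a b H X).card : ℝ) = ∑ _X ∈ T, (1 : ℝ) :=
    sum_congr rfl fun X hX => by rw [one X (mem_filter.1 hX).2]; norm_num
  rw [e1, e2] at co
  linarith

end Pool.Agent.P.MP_92d394_lc.F
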