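import Pool.Agent.P.MP_92d394_lc.H.Lm

/-! Statements of the steps of the removable edge bound with threshold dependent certificates. -/

namespace Pool.Agent.P.MP_92d394_lc.F

open Finset H

/-- A join for arbitrary real weights, meeting every three element cut once. -/
def S_Join : Prop :=
  ∀ (V E : Type) [Fintype V] [DecidableEq V] [Fintype E] [DecidableEq E] (a b : E → V)
    (H : Finset E) (g : E → ℝ), Nonempty V → Two a b H →
    ∃ J ⊆ H, (∀ S, (J ∩ dl a b H S).card % 2 = (dl a b H S).card % 2) ∧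
      (∀ S, (dl a b H S).card = 3 → (J ∩ dl a b H S).card = 1) ∧
      3 * ∑ e ∈ J, g e ≤ ∑ e ∈ H, g e

/-- The certificate in the case without a separating node. -/
def S_Ord : Prop :=
  ∀ (W E : Type) [DecidableEq W] [DecidableEq E] (a b : E → W) (H : Finset E) (U T : Finset W)
    (r : W), r ∈ U → (∀ e ∈ H, a e ∈ U ∧ b e ∈ U) →
    (∀ S ⊆ U.erase r, S.Nonempty → 2 ≤ (dl a b H S).card) →
    (∀ u ∈ T, (dl a b H {u}).card = 3) →
    (∀ v ∈ U, ∀ C ⊆ (U.erase r).erase v, C.Nonempty →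
      (∀ e ∈ dl a b H C, a e = v ∨ b e = v) → insert v C = U) →
    ∃ D ⊆ H, 2 * D.card ≤ ∑ u ∈ U.erase r, (if u ∈ T then 1 else 2) ∧
      ∀ J : Finset E, (∀ u ∈ T, (J ∩ dl a b H {u}).card ≤ 1) →
        ∀ S ⊆ U.erase r, S.Nonempty → ∃ e ∈ dl a b H S, e ∉ J ∨ e ∈ D

/-- The certificate for a rooted two edge connected multigraph. -/
def S_MS : Prop :=
  ∀ (W E : Type) [DecidableEq W] [DecidableEq E] (a b : E → W) (H : Finset E) (U T : Finset W)
    (r : W), r ∈ U → (∀ e ∈ H, a e ∈ U ∧ b e ∈ U) →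
    (∀ S ⊆ U.erase r, S.Nonempty → 2 ≤ (dl a b H S).card) →
    (∀ u ∈ T, (dl a b H {u}).card = 3) →
    ∃ D ⊆ H, 2 * D.card ≤ ∑ u ∈ U.erase r, (if u ∈ T then 1 else 2) ∧
      ∀ J : Finset E, (∀ u ∈ T, (J ∩ dl a b H {u}).card ≤ 1) →
        ∀ S ⊆ U.erase r, S.Nonempty → ∃ e ∈ dl a b H S, e ∉ J ∨ e ∈ D

/-- The certificate for the classes of a partition. -/
def S_Lev : Prop :=
  ∀ (V E : Type) [Fintype V] [DecidableEq V] [Fintype E] [DecidableEq E] (a b : E → V)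
    (H : Finset E) (ρ : V → Finset V) (r : V), Two a b H → (∀ v, v ∈ ρ v) →
    (∀ u v, u ∈ ρ v → ρ u = ρ v) →
    ∃ D ⊆ H, 2 * D.card ≤
        ∑ X ∈ (univ.image ρ).erase (ρ r), (if (dl a b H X).card = 3 then 1 else 2) ∧
      ∀ J : Finset E, (∀ X, (dl a b H X).card = 3 → (J ∩ dl a b H X).card ≤ 1) →
        ∀ S : Finset V, S.Nonempty → Sᶜ.Nonempty → (∀ v ∈ S, ρ v ⊆ S) →
          ∃ e ∈ dl a b H S, e ∉ J ∨ e ∈ D

/-- A cheap set of edges connecting the components of `F`. -/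
def S_Con : Prop :=
  ∀ (V E : Type) [Fintype V] [DecidableEq V] [Fintype E] [DecidableEq E] (a b : E → V)
    (w : E → ℝ) (F : Finset E) (K : ℝ → Finset E), Nonempty V →
    (∀ t, ∀ S : Finset V, S.Nonempty → Sᶜ.Nonempty → (∀ e, w e ≤ t → (a e ∈ S ↔ b e ∈ S)) →
      (dl a b F S).Nonempty ∨ (dl a b (K t) S).Nonempty) →
    ∃ M : Finset E, (∀ S : Finset V, S.Nonempty → Sᶜ.Nonempty →
        (dl a b F S).Nonempty ∨ (dl a b M S).Nonempty) ∧
      ∀ t, 0 ≤ t → (M.filter fun e => t < w e).card ≤ (K t).card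

/-- A finite layer cake decomposition. -/
def S_Cake : Prop :=
  ∀ (E : Type) [Fintype E] (w : E → ℝ), (∀ e, 0 ≤ w e) →
    ∃ (I : Finset ℝ) (μ : ℝ → ℝ), (∀ t ∈ I, 0 ≤ t ∧ 0 ≤ μ t) ∧
      ∀ e, w e = ∑ t ∈ I, μ t * if t < w e then 1 else 0

/-- Certificates for all thresholds. -/
def Rem {V E : Type} [Fintype V] [DecidableEq V] [DecidableEq E] (a b : E → V) (w : E → ℝ)
    (H : Finset E) (D : ℝ → Finset E) : Prop :=
  ∀ t, ∀ J : Finset E, (∀ X, (dl a b H X).card = 3 → (J ∩ dl a b H X).card ≤ 1) →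
    ∀ S : Finset V, S.Nonempty → Sᶜ.Nonempty → (∀ e, w e ≤ t → (a e ∈ S ↔ b e ∈ S)) →
      ∃ e ∈ dl a b H S, e ∉ J ∨ e ∈ D t

/-- Connected even multigraphs. -/
def Ev {V E : Type} [Fintype V] [DecidableEq V] [Fintype E] (a b : E → V) (z : E → ℕ) : Prop :=
  (∀ S, Even (∑ e ∈ dl a b univ S, z e)) ∧
    ∀ S : Finset V, S.Nonempty → Sᶜ.Nonempty → 0 < ∑ e ∈ dl a b univ S, z e

/-- The multigraph built from `H`, a join and a connector. -/
def S_Tour : Prop :=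
  ∀ (V E : Type) [Fintype V] [DecidableEq V] [Fintype E] [DecidableEq E] (a b : E → V)
    (w : E → ℝ) (H : Finset E) (D : ℝ → Finset E) (I : Finset ℝ) (μ : ℝ → ℝ), Nonempty V →
    Two a b H → Rem a b w H D → (∀ t ∈ I, 0 ≤ t ∧ 0 ≤ μ t) →
    (∀ e, w e = ∑ t ∈ I, μ t * if t < w e then 1 else 0) →
    ∃ z : E → ℕ, Ev a b z ∧
      3 * ∑ e, w e * z e ≤ 2 * ∑ e ∈ H, w e + 2 * ∑ t ∈ I, μ t * (D t).card

end Pool.Agent.P.MP_92d394_lc.F
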