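import Pool.Agent.P.MP_92d394_lc.F.St

/-! Statements of the last steps towards the bound 10/7 for half integral points. -/

namespace Pool.Agent.P.MP_92d394_lc.F

open Finset H

/-- The threshold inequality. -/
def S_Thr : Prop :=
  ∀ (V E : Type) [Fintype V] [DecidableEq V] [Fintype E] [DecidableEq E] (a b : E → V)
    (w : E → ℝ), Reg a b → Nonempty V →
    ∃ (B H : Finset E) (D : ℝ → Finset E),
      (∀ S : Finset V, S.Nonempty → Sᶜ.Nonempty → (dl a b B S).Nonempty) ∧ Two a b H ∧
      Rem a b w H D ∧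
      ∀ t, 4 * (B.filter fun e => t < w e).card + 2 * (H.filter fun e => t < w e).card +
        2 * (D t).card ≤ 4 * (univ.filter fun e => t < w e).card

/-- A cheap connected even multigraph. -/
def S_Mid : Prop :=
  ∀ (V E : Type) [Fintype V] [DecidableEq V] [Fintype E] [DecidableEq E] (a b : E → V)
    (w : E → ℝ), Reg a b → Nonempty V → (∀ e, 0 ≤ w e) →
    ∃ z : E → ℕ, Ev a b z ∧ 7 * ∑ e, w e * z e ≤ 5 * ∑ e, w e

end Pool.Agent.P.MP_92d394_lc.F
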